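import Mathlib
import Pool.Agent.Lib.MP_ff9ca0_nt.Final

open Finset Polynomial

namespace Pool.Agent.Results.MP_ff9ca0_nt.SquareOfT

/-- `T_n(b,c)`: the coefficient of `x^n` in the polynomial `(x^2 + b x + c)^n`. -/
noncomputable def T (b c : ℤ) (n : ℕ) : ℤ := ((X ^ 2 + C b * X + C c : ℤ[X]) ^ n).coeff n

/-- `S(p) = ∑_{j=0}^{p-1} C(2j,j) T_{2j}(9,20)^2 / 4^j`, a rational number. -/
noncomputable def S (p : ℕ) : ℚ :=
  ∑ j ∈ range p, ((2 * j).choose j : ℚ) * (T 9 20 (2 * j) : ℚ) ^ 2 / 4 ^ j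

/-- `a ≡ b (mod p^2)` in the ring of rationals whose denominator is prime to `p`: `a - b` is `p^2`
times a rational number whose denominator is not divisible by `p`. -/
def CongModSq (p : ℕ) (a b : ℚ) : Prop := ∃ r : ℚ, ¬ p ∣ r.den ∧ a - b = (p : ℚ) ^ 2 * r

end Pool.Agent.Results.MP_ff9ca0_nt.SquareOfT

open Pool.Agent.Results.MP_ff9ca0_nt.SquareOfT in
/-- Q1 holds: for every odd prime `p`, all of (a), (b), (c) are true. -/
theorem Pool.Agent.Results.MP_ff9ca0_nt.SquareOfT.result :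
    ∀ p : ℕ, p.Prime → p ≠ 2 →
      ((p % 20 = 1 ∨ p % 20 = 9) → ∀ x y : ℤ, (p : ℤ) = x ^ 2 + 25 * y ^ 2 →
        CongModSq p (S p) (4 * (x : ℚ) ^ 2 - 2 * p)) ∧
      ((p % 20 = 13 ∨ p % 20 = 17) → ∀ x y : ℤ, (p : ℤ) = x ^ 2 + y ^ 2 → Odd x →
        x * y % 5 = 1 → CongModSq p (S p) (4 * (x : ℚ) * y * (jacobiSym x 5 : ℤ))) ∧
      (p % 4 = 3 → CongModSq p (S p) 0) := by
  intro p hp h2
  refine ⟨fun h20 x y h => ?_, fun h20 x y h hx h5 => ?_, fun h4 => ?_⟩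
  · have := Pool.Agent.Lib.MP_ff9ca0_nt.part_a hp h20 h
    push_cast at this
    exact this
  · have := Pool.Agent.Lib.MP_ff9ca0_nt.part_b hp h20 h hx h5
    push_cast at this
    exact this
  · have := Pool.Agent.Lib.MP_ff9ca0_nt.part_c hp h4
    push_cast at this
    exact this
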